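import Mathlib

set_option autoImplicit false

namespace Pool.Agent.H.MP_3c7ff8_pr

open MeasureTheory Filter Topology ENNReal ProbabilityTheory

variable {G S : Type} [AddCommGroup G] [DecidableEq G] [Fintype S] [MeasurableSpace S]
  [DiscreteMeasurableSpace S] (N : Finset G) (φ : (N → S) → PMF S)

noncomputable def K (x : G → S) : Measure (G → S) :=
  Measure.infinitePi fun i => (φ fun n => x (i + n)).toMeasure

instance (x : G → S) : IsProbabilityMeasure (K N φ x) := by unfold K; infer_instance

omit [DecidableEq G] in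
lemma mK : Measurable (K N φ) := by
  apply Measurable.measure_of_isPiSystem_of_isProbabilityMeasure generateFrom_squareCylinders.symm
    (isPiSystem_squareCylinders (fun _ => MeasurableSpace.isPiSystem_measurableSet) (by simp))
  rintro _ ⟨s, t, ht, rfl⟩
  simp only [K, Measure.infinitePi_pi _ fun i _ => ht i (Set.mem_univ i)]
  apply Finset.measurable_prod
  intro i _
  exact (measurable_of_countable (fun u : N → S => (φ u).toMeasure (t i))).comp
    (measurable_pi_lambda _ fun n => measurable_pi_apply _)

noncomputable def T (g : (G → S) → ℝ≥0∞) (x : G → S) : ℝ≥0∞ := ∫⁻ y, g y ∂K N φ x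

omit [AddCommGroup G] [Fintype S] [MeasurableSpace S] [DiscreteMeasurableSpace S] in
lemma dep_eq {g : (G → S) → ℝ≥0∞} {D : Finset G} (h : DependsOn g (D : Set G)) (x : G → S) :
    g = fun y => g (Function.updateFinset x D (D.restrict y)) := by
  ext y
  apply h
  intro i hi
  have hi' : i ∈ D := hi
  simp [Function.updateFinset, hi']

omit [AddCommGroup G] in
lemma dep_meas {g : (G → S) → ℝ≥0∞} {D : Finset G} (h : DependsOn g (D : Set G)) :
    Measurable g := by
  rcases isEmpty_or_nonempty (G → S) with he | ⟨⟨x⟩⟩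
  · exact measurable_of_empty g
  · rw [dep_eq h x]
    exact (measurable_of_countable (fun u : D → S => g (Function.updateFinset x D u))).comp
      (Finset.measurable_restrict D)

def nb (D : Finset G) : Finset G := (D ×ˢ N).image fun p => p.1 + p.2

lemma T_dep {g : (G → S) → ℝ≥0∞} {D : Finset G} (h : DependsOn g (D : Set G)) :
    DependsOn (T N φ g) (nb N D : Set G) := by
  intro x y hxy
  unfold T K
  rw [dep_eq h x]
  refine (lintegral_restrict_infinitePi (X := fun _ : G => S) _ (s := D)
    (f := fun u : D → S => g (Function.updateFinset x D u)) (measurable_of_countable _)).trans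
    (Eq.trans ?_ (lintegral_restrict_infinitePi (X := fun _ : G => S) _ (s := D)
    (f := fun u : D → S => g (Function.updateFinset x D u)) (measurable_of_countable _)).symm)
  congr 2
  ext1 i
  congr 2
  ext1 n
  apply hxy
  exact Finset.mem_coe.mpr (Finset.mem_image.mpr ⟨(i, n), Finset.mem_product.mpr ⟨i.2, n.2⟩, rfl⟩)

lemma T_mul {g h : (G → S) → ℝ≥0∞} {D E : Finset G} (hg : DependsOn g (D : Set G))
    (hh : DependsOn h (E : Set G)) (hd : Disjoint D E) :
    T N φ (fun y => g y * h y) = fun x => T N φ g x * T N φ h x := by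
  ext x
  apply lintegral_mul_eq_lintegral_mul_lintegral_of_indepFun (dep_meas hg) (dep_meas hh)
  have := ((iIndepFun_infinitePi (P := fun i => (φ fun n => x (i + n)).toMeasure)
    (X := fun _ => id) fun _ => measurable_id).indepFun_finset D E hd
    fun i => measurable_pi_apply i).comp
    (measurable_of_countable (fun u : D → S => g (Function.updateFinset x D u)))
    (measurable_of_countable (fun u : E → S => h (Function.updateFinset x E u)))
  rw [dep_eq hg x, dep_eq hh x]
  exact this

lemma iter_dep {g : (G → S) → ℝ≥0∞} {D : Finset G} (h : DependsOn g (D : Set G)) (t : ℕ) :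
    DependsOn ((T N φ)^[t] g) ((nb N)^[t] D : Finset G) := by
  induction t with
  | zero => exact h
  | succ t ih =>
    rw [Function.iterate_succ_apply', Function.iterate_succ_apply']
    exact T_dep N φ ih

lemma iter_mul {g h : (G → S) → ℝ≥0∞} {D E : Finset G} (hg : DependsOn g (D : Set G))
    (hh : DependsOn h (E : Set G)) (t : ℕ)
    (hd : ∀ j < t, Disjoint ((nb N)^[j] D) ((nb N)^[j] E)) :
    (T N φ)^[t] (fun y => g y * h y) = fun x => (T N φ)^[t] g x * (T N φ)^[t] h x := by
  induction t with
  | zero => rfl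
  | succ t ih =>
    rw [Function.iterate_succ_apply', ih fun j hj => hd j (by omega),
      T_mul N φ (iter_dep N φ hg t) (iter_dep N φ hh t) (hd t (by omega))]
    simp only [Function.iterate_succ_apply']

omit [DecidableEq G] [Fintype S] [DiscreteMeasurableSpace S] in
lemma iter_le {g : (G → S) → ℝ≥0∞} (h : ∀ y, g y ≤ 1) (t : ℕ) : ∀ x, (T N φ)^[t] g x ≤ 1 := by
  induction t with
  | zero => exact h
  | succ t ih =>
    intro x
    rw [Function.iterate_succ_apply']
    exact (lintegral_mono ih).trans (by simp)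

lemma lint_iter {g : (G → S) → ℝ≥0∞} {D : Finset G} (h : DependsOn g (D : Set G)) (n : ℕ)
    (μ : Measure (G → S)) :
    ∫⁻ x, g x ∂((fun ν : Measure (G → S) => ν.bind (K N φ))^[n] μ) =
      ∫⁻ x, (T N φ)^[n] g x ∂μ := by
  induction n generalizing μ with
  | zero => rfl
  | succ n ih =>
    rw [Function.iterate_succ_apply, ih, Measure.lintegral_bind (mK N φ).aemeasurable
      (dep_meas (iter_dep N φ h n)).aemeasurable]
    simp only [Function.iterate_succ_apply']
    rfl

lemma mem_shift (k : G) (B : Finset G) (j : ℕ) :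
    ∀ i ∈ (nb N)^[j] (B.image (· + k)), i - k ∈ (nb N)^[j] B := by
  induction j with
  | zero =>
    intro i hi
    obtain ⟨b, hb, rfl⟩ := Finset.mem_image.mp hi
    simpa using hb
  | succ j ih =>
    intro i hi
    rw [Function.iterate_succ_apply'] at hi ⊢
    obtain ⟨p, hp, rfl⟩ := Finset.mem_image.mp hi
    rw [Finset.mem_product] at hp
    exact Finset.mem_image.mpr ⟨(p.1 - k, p.2), Finset.mem_product.mpr ⟨ih _ hp.1, hp.2⟩, by
      simp only; abel⟩

lemma far (A B : Finset G) (t : ℕ) : ∀ᶠ k in cofinite,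
    ∀ j < t, Disjoint ((nb N)^[j] A) ((nb N)^[j] (B.image (· + k))) := by
  have : ∀ j, ∀ᶠ k in cofinite, Disjoint ((nb N)^[j] A) ((nb N)^[j] (B.image (· + k))) := by
    intro j
    filter_upwards [(((nb N)^[j] A ×ˢ (nb N)^[j] B).image
      fun p => p.1 - p.2).eventually_cofinite_notMem] with k hk
    rw [Finset.disjoint_left]
    intro i h1 h2
    exact hk (Finset.mem_image.mpr ⟨(i, i - k), Finset.mem_product.mpr ⟨h1, mem_shift N k B j i h2⟩,
      by simp⟩)
  simpa only [← Finset.mem_range] using (Finset.range t).eventually_all.mpr fun j _ => this j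

def cyl (A : Finset G) (u : G → S) : Set (G → S) := {x | ∀ i ∈ A, x i = u i}

def sh (k : G) (x : G → S) : G → S := fun i => x (i + k)

omit [DecidableEq G] [Fintype S] [DiscreteMeasurableSpace S] in
lemma msh (k : G) : Measurable (sh (S := S) k) :=
  measurable_pi_lambda _ fun _ => measurable_pi_apply _

omit [AddCommGroup G] [DecidableEq G] [Fintype S] in
lemma mcyl (A : Finset G) (u : G → S) : MeasurableSet (cyl A u) := by
  have : cyl A u = Set.pi A fun i => {u i} := by ext; simp [cyl]
  rw [this]
  exact MeasurableSet.pi A.countable_toSet fun _ _ => MeasurableSet.of_discrete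

omit [Fintype S] in
lemma K_sh (k : G) (x : G → S) : K N φ (sh k x) = (K N φ x).map (sh k) := by
  symm
  apply Measure.eq_infinitePi
  intro s t ht
  have : sh k ⁻¹' Set.pi s t = Set.pi (s.image (· + k) : Finset G) fun j => t (j - k) := by
    ext y
    simp only [Set.mem_preimage, Set.mem_pi, Finset.mem_coe, sh, Finset.forall_mem_image]
    exact forall₂_congr fun i _ => by rw [add_sub_cancel_right]
  rw [Measure.map_apply (msh k) (MeasurableSet.pi s.countable_toSet fun i _ => ht i), this, K,
    Measure.infinitePi_pi _ fun _ _ => MeasurableSet.of_discrete,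
    Finset.prod_image fun a _ b _ h => add_right_cancel h]
  apply Finset.prod_congr rfl
  intro i _
  rw [add_sub_cancel_right]
  simp only [sh, add_right_comm i k]

lemma inv_sh (k : G) (π : Measure (G → S)) (h : π.bind (K N φ) = π) :
    (π.map (sh k)).bind (K N φ) = π.map (sh k) := by
  ext s hs
  conv_rhs => rw [← h]
  rw [Measure.bind_apply hs (mK N φ).aemeasurable, Measure.map_apply (msh k) hs,
    Measure.bind_apply (msh k hs) (mK N φ).aemeasurable,
    lintegral_map (f := fun a => K N φ a s) ((Measure.measurable_coe hs).comp (mK N φ)) (msh k)]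
  apply lintegral_congr
  intro x
  rw [K_sh, Measure.map_apply (msh k) hs]

theorem mixing (π : Measure (G → S)) [IsProbabilityMeasure π] (hinv : π.bind (K N φ) = π)
    (hsh : ∀ k, π.map (sh k) = π) (A B : Finset G) (u v : G → S)
    (hc : ∀ x, Tendsto (fun t => ((fun ν : Measure (G → S) => ν.bind (K N φ))^[t] (Measure.dirac x))
      (cyl A u)) atTop (𝓝 (π (cyl A u)))) :
    Tendsto (fun k => π (cyl A u ∩ sh k ⁻¹' cyl B v)) cofinite (𝓝 (π (cyl A u) * π (cyl B v))) := by
  have dA : DependsOn ((cyl A u).indicator (1 : (G → S) → ℝ≥0∞)) (A : Set G) := by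
    intro x y h
    have : x ∈ cyl A u ↔ y ∈ cyl A u := forall₂_congr fun i hi => by rw [h i hi]
    by_cases hy : y ∈ cyl A u
    · simp [hy, this.mpr hy]
    · simp [hy, mt this.mp hy]
  have dB : ∀ k, DependsOn ((sh k ⁻¹' cyl B v).indicator (1 : (G → S) → ℝ≥0∞))
      (B.image (· + k) : Finset G) := by
    intro k x y h
    have : x ∈ sh k ⁻¹' cyl B v ↔ y ∈ sh k ⁻¹' cyl B v := forall₂_congr fun i hi => by
      rw [sh, sh, h _ (Finset.mem_coe.mpr (Finset.mem_image_of_mem _ hi))]
    by_cases hy : y ∈ sh k ⁻¹' cyl B v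
    · rw [Set.indicator_of_mem hy, Set.indicator_of_mem (this.mpr hy)]; rfl
    · rw [Set.indicator_of_notMem hy, Set.indicator_of_notMem (mt this.mp hy)]
  have le1 : ∀ (E : Set (G → S)) y, E.indicator (1 : (G → S) → ℝ≥0∞) y ≤ 1 :=
    fun E y => Set.indicator_le_self' (fun _ _ => zero_le) y
  obtain ⟨c, hc0⟩ : ∃ c, c = π (cyl A u) := ⟨_, rfl⟩
  have c1 : c ≤ 1 := hc0 ▸ prob_le_one
  obtain ⟨a, ha⟩ : ∃ a : ℕ → (G → S) → ℝ≥0∞, ∀ t, a t = (T N φ)^[t] ((cyl A u).indicator 1) :=
    ⟨_, fun _ => rfl⟩
  have ma : ∀ t, Measurable (a t) := fun t => ha t ▸ dep_meas (iter_dep N φ dA t)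
  have a1 : ∀ t x, a t x ≤ 1 := fun t => ha t ▸ iter_le N φ (le1 _) t
  have al : ∀ x, Tendsto (fun t => a t x) atTop (𝓝 c) := by
    intro x
    rw [hc0]
    refine (hc x).congr fun t => ?_
    rw [← lintegral_indicator_one (mcyl A u), lint_iter N φ dA, ← ha, lintegral_dirac' _ (ma t)]
  have L : Tendsto (fun t => ∫⁻ x, (a t x - c) + (c - a t x) ∂π) atTop (𝓝 0) := by
    have := tendsto_lintegral_of_dominated_convergence (μ := π) (f := fun _ => 0)
      (F := fun t x => (a t x - c) + (c - a t x)) (fun _ => 1 + 1)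
      (fun t => ((ma t).sub measurable_const).add (measurable_const.sub (ma t)))
      (fun t => Eventually.of_forall fun x =>
        add_le_add (tsub_le_self.trans (a1 t x)) (tsub_le_self.trans c1)) (by simp)
      (Eventually.of_forall fun x => by
        have hc' : c ≠ ⊤ := ne_top_of_le_ne_top one_ne_top c1
        have h1 := ENNReal.Tendsto.sub (al x) (tendsto_const_nhds (x := c)) (Or.inl hc')
        have h2 := ENNReal.Tendsto.sub (tendsto_const_nhds (x := c)) (al x) (Or.inl hc')
        simpa using h1.add h2)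
    simpa using this
  have fix : ∀ t, (fun ν : Measure (G → S) => ν.bind (K N φ))^[t] π = π :=
    fun t => Function.iterate_fixed hinv t
  rw [← hc0, ENNReal.tendsto_nhds (by finiteness [ne_top_of_le_ne_top one_ne_top c1])]
  intro ε hε
  obtain ⟨t, ht⟩ := (ENNReal.tendsto_nhds_zero.mp L ε hε).exists
  filter_upwards [far N A B t] with k hk
  obtain ⟨b, hb⟩ : ∃ b, b = (T N φ)^[t] ((sh k ⁻¹' cyl B v).indicator 1) := ⟨_, rfl⟩
  have mb : Measurable b := hb ▸ dep_meas (iter_dep N φ (dB k) t)
  have b1 : ∀ x, b x ≤ 1 := hb ▸ iter_le N φ (le1 _) t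
  have e1 : π (cyl B v) = ∫⁻ x, b x ∂π := by
    rw [hb, ← lint_iter N φ (dB k), fix, lintegral_indicator_one (msh k (mcyl B v)),
      ← Measure.map_apply (msh k) (mcyl B v), hsh]
  have e2 : π (cyl A u ∩ sh k ⁻¹' cyl B v) = ∫⁻ x, a t x * b x ∂π := by
    have dAB : DependsOn (fun y => (cyl A u).indicator (1 : (G → S) → ℝ≥0∞) y *
        (sh k ⁻¹' cyl B v).indicator (1 : (G → S) → ℝ≥0∞) y)
        (A ∪ B.image (· + k) : Finset G) := by
      intro x y h
      simp only
      rw [dA fun i hi => h i (by simp only [Finset.coe_union]; exact Or.inl hi),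
        dB k fun i hi => h i (by simp only [Finset.coe_union]; exact Or.inr hi)]
    have := lint_iter N φ dAB t π
    rw [iter_mul N φ dA (dB k) t hk, fix, ← ha, ← hb] at this
    rw [← this, ← lintegral_indicator_one ((mcyl A u).inter (msh k (mcyl B v))),
      Set.inter_indicator_one]
    rfl
  rw [e1, e2, ← lintegral_const_mul _ mb]
  constructor
  · rw [tsub_le_iff_right]
    refine le_trans ?_ (add_le_add_right ht _)
    rw [← lintegral_add_left (f := fun x => a t x * b x) ((ma t).mul mb)]
    apply lintegral_mono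
    intro x
    calc c * b x ≤ (a t x + (c - a t x)) * b x := by gcongr; exact le_add_tsub
      _ = a t x * b x + (c - a t x) * b x := add_mul _ _ _
      _ ≤ a t x * b x + (c - a t x) * 1 := by gcongr; exact b1 x
      _ ≤ _ := by rw [mul_one]; exact add_le_add_right le_add_self _
  · refine le_trans ?_ (add_le_add_right ht _)
    rw [← lintegral_add_left (f := fun x => c * b x) (measurable_const.mul mb)]
    apply lintegral_mono
    intro x
    calc a t x * b x ≤ (c + (a t x - c)) * b x := by gcongr; exact le_add_tsub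
      _ = c * b x + (a t x - c) * b x := add_mul _ _ _
      _ ≤ c * b x + (a t x - c) * 1 := by gcongr; exact b1 x
      _ ≤ _ := by rw [mul_one]; exact add_le_add_right le_self_add _

end Pool.Agent.H.MP_3c7ff8_pr
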